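import Pool.Agent.N71.SP.Stm

/-!
# Project SP, AVG: the average of the near collision sum for products up to any bound
-/

set_option autoImplicit false

namespace Pool.Agent.N564.SP

open Finset Filter Pool.Agent.H38R2.CG Pool.Agent.H38R2.CG2 Pool.Agent.R345.IX
open scoped Classical

/-- the sum over the discriminants for one pair of sets of primes -/
theorem avg_one' (r X k Z : ℕ) (hr : r < Qz 2) (hX : 1 ≤ X) (hZ : 1 ≤ Z) (s t : Finset ℕ)
    (hs : ∀ p ∈ s, p.Prime) (ht : ∀ p ∈ t, p.Prime) (hsk : (s ∩ t).card ≤ k) (hsX : prodS s ≤ Z)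
    (htX : prodS t ≤ Z) :
    ∑ D ∈ DD 2 r X 1, Rsum D (prodS s * prodS t) ≤
      (if s = t then (X : ℝ) else 0) +
        1024 * 4 ^ k * (2 + Real.log Z) * (√(X : ℝ) + Z / √(X : ℝ)) := by
  have hs1 : 1 ≤ prodS s := Finset.prod_pos fun p hp => (hs p hp).pos
  have ht1 : 1 ≤ prodS t := Finset.prod_pos fun p hp => (ht p hp).pos
  set n := prodS s * prodS t with hn
  have hn1 : 1 ≤ n := Nat.mul_pos hs1 ht1
  have hnX : n ≤ Z * Z := Nat.mul_le_mul hsX htX
  have hXr : (1 : ℝ) ≤ X := by exact_mod_cast hX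
  have hZr : (1 : ℝ) ≤ Z := by exact_mod_cast hZ
  have hX0 : (0 : ℝ) < X := by linarith
  have hZ0 : (0 : ℝ) < Z := by linarith
  have hlogZ : 0 ≤ Real.log Z := Real.log_natCast_nonneg Z
  have hnr : (1 : ℝ) ≤ n := by exact_mod_cast hn1
  have hn0 : (0 : ℝ) < n := by linarith
  have hsn : 0 < √(n : ℝ) := Real.sqrt_pos.2 hn0
  have hsX' : 0 < √(X : ℝ) := Real.sqrt_pos.2 hX0
  have hsX1 : 1 ≤ √(X : ℝ) := Real.one_le_sqrt.2 hXr
  have hTB1 := T_TB1 T_TB1a 2 r X n 1 hr one_pos le_rfl hX hn1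
  refine hTB1.trans ?_
  have h1 : (if IsSquare n then ((DD 2 r X 1).card : ℝ) else 0) ≤ (if s = t then (X : ℝ) else 0) := by
    by_cases h : IsSquare n
    · have h2 : s = t := ERRh.isSquare_imp_eq hs ht h
      rw [if_pos h, if_pos h2]
      exact DD_card_le r X
    · rw [if_neg h]
      split_ifs
      · exact hX0.le
      · exact le_rfl
  refine add_le_add h1 ?_
  set V : ℕ := ⌊2 * √((n : ℝ) / X)⌋₊ with hV
  have hQ : ((Qz 2 : ℕ) : ℝ) = 16 := by rw [Qz_two]; norm_num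
  obtain ⟨-, -, hom, -⟩ := T_TB2 X 1 hX one_pos le_rfl n hn0
  have hVle : (V : ℝ) ≤ 2 * √((n : ℝ) / X) := Nat.floor_le (by positivity)
  have hsq : √((n : ℝ) / X) = √(n : ℝ) / √(X : ℝ) := Real.sqrt_div hn0.le _
  have hnX' : √(n : ℝ) ≤ Z := by
    rw [Real.sqrt_le_left hZ0.le]
    have : ((n : ℕ) : ℝ) ≤ ((Z * Z : ℕ) : ℝ) := by exact_mod_cast hnX
    push_cast at this
    nlinarith
  have hXX : √(X : ℝ) * √(X : ℝ) = X := Real.mul_self_sqrt hX0.le
  have hV1 : (V : ℝ) ≤ 2 * (Z / √(X : ℝ)) := by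
    refine hVle.trans ?_
    rw [hsq]
    have : √(n : ℝ) / √(X : ℝ) ≤ Z / √(X : ℝ) := div_le_div_of_nonneg_right hnX' hsX'.le
    linarith
  have hV2 : (V : ℝ) * (X / (4 * √(n : ℝ))) ≤ √(X : ℝ) / 2 := by
    calc (V : ℝ) * (X / (4 * √(n : ℝ))) ≤ (2 * √((n : ℝ) / X)) * (X / (4 * √(n : ℝ))) := by gcongr
      _ = √(X : ℝ) / 2 := by
        rw [hsq]
        have h : 2 * (√(n : ℝ) / √(X : ℝ)) * ((√(X : ℝ) * √(X : ℝ)) / (4 * √(n : ℝ))) =
            √(X : ℝ) / 2 := by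
          field_simp
          norm_num
        rw [hXX] at h
        exact h
  have hsum : ∑ v ∈ Finset.Icc 1 V, (rho 2 r n v : ℝ) * (om X 1 v n / Qz 2 + 1) ≤
      (∑ v ∈ Finset.Icc 1 V, (rho 2 r n v : ℝ)) * (X / (4 * √(n : ℝ)) / 16 + 1) := by
    rw [Finset.sum_mul]
    refine Finset.sum_le_sum fun v _ => ?_
    refine mul_le_mul_of_nonneg_left ?_ (Nat.cast_nonneg _)
    have := hom v
    rw [hQ]
    rw [one_mul] at this
    have h3 : om X 1 v n / 16 ≤ X / (4 * √(n : ℝ)) / 16 := by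
      exact div_le_div_of_nonneg_right this (by norm_num)
    linarith
  have hvs := ERRh.v_sum T_TB3a 2 r s t hs ht V
  rw [hQ] at hvs
  have h4 : (4 : ℝ) ^ ((s ∩ t).card) ≤ 4 ^ k := pow_le_pow_right₀ (by norm_num) hsk
  have hlogV : Real.log V ≤ 1 + Real.log Z := by
    rcases Nat.eq_zero_or_pos V with hV0 | hVpos
    · rw [hV0, Nat.cast_zero, Real.log_zero]
      linarith
    · have hVr : (0 : ℝ) < V := by exact_mod_cast hVpos
      have h6 : (V : ℝ) ≤ 2 * Z := by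
        refine hV1.trans ?_
        have : (Z : ℝ) / √(X : ℝ) ≤ Z := div_le_self hZ0.le hsX1
        linarith
      have h5 : Real.log V ≤ Real.log (2 * Z) := Real.log_le_log hVr h6
      rw [Real.log_mul (by norm_num) hZ0.ne'] at h5
      have := Real.log_two_lt_d9
      linarith
  have hlogV0 : 0 ≤ Real.log V := Real.log_natCast_nonneg V
  have hc0 : 0 ≤ X / (4 * √(n : ℝ)) / 16 + 1 := by positivity
  calc 2 * ∑ v ∈ Finset.Icc 1 V, (rho 2 r n v : ℝ) * (om X 1 v n / Qz 2 + 1)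
      ≤ 2 * ((16 * 16 * (4 ^ k * (V * (2 + Real.log Z)))) * (X / (4 * √(n : ℝ)) / 16 + 1)) := by
        refine mul_le_mul_of_nonneg_left (hsum.trans ?_) (by norm_num)
        refine mul_le_mul_of_nonneg_right (hvs.trans ?_) hc0
        have h6 : (V : ℝ) * (1 + Real.log V) ≤ V * (2 + Real.log Z) := by
          apply mul_le_mul_of_nonneg_left _ (Nat.cast_nonneg _)
          linarith
        have h7 : (0 : ℝ) ≤ V * (1 + Real.log V) := by positivity
        gcongr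
    _ = 512 * 4 ^ k * (2 + Real.log Z) * (V * (X / (4 * √(n : ℝ))) / 16 + V) := by ring
    _ ≤ 512 * 4 ^ k * (2 + Real.log Z) * (√(X : ℝ) / 2 / 16 + 2 * (Z / √(X : ℝ))) := by
        gcongr
    _ ≤ 1024 * 4 ^ k * (2 + Real.log Z) * (√(X : ℝ) + Z / √(X : ℝ)) := by
        have h9 : 0 ≤ 512 * 4 ^ k * (2 + Real.log Z) := by positivity
        have h11 : 1024 * 4 ^ k * (2 + Real.log Z) * (√(X : ℝ) + Z / √(X : ℝ)) =
            (512 * 4 ^ k * (2 + Real.log Z)) * (2 * √(X : ℝ) + 2 * (Z / √(X : ℝ))) := by ring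
        rw [h11]
        apply mul_le_mul_of_nonneg_left _ h9
        linarith

theorem t_AVG : Pool.Agent.N71.SP.E_AVG := by
  intro r X k Z hr hX hZ S hS
  have hXr : (1 : ℝ) ≤ X := by exact_mod_cast hX
  have hX0 : (0 : ℝ) < X := by linarith
  have hlogZ : 0 ≤ Real.log Z := Real.log_natCast_nonneg Z
  have hsX' : 0 < √(X : ℝ) := Real.sqrt_pos.2 hX0
  have e1 : ∑ D ∈ DD 2 r X 1, SD D S (fun _ => 1) =
      ∑ s ∈ S, ∑ t ∈ S, 2 ^ ((s ∩ t).card) * ∑ D ∈ DD 2 r X 1, Rsum D (prodS s * prodS t) := by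
    unfold SD
    rw [Finset.sum_comm]
    refine Finset.sum_congr rfl fun s _ => ?_
    rw [Finset.sum_comm]
    refine Finset.sum_congr rfl fun t _ => ?_
    rw [Finset.mul_sum]
    refine Finset.sum_congr rfl fun D _ => ?_
    ring
  rw [e1]
  set W : ℝ := 1024 * 4 ^ k * (2 + Real.log Z) * (√(X : ℝ) + Z / √(X : ℝ)) with hW
  have hW0 : 0 ≤ W := by positivity
  have h2 : ∀ s ∈ S, ∀ t ∈ S, 2 ^ ((s ∩ t).card) * ∑ D ∈ DD 2 r X 1, Rsum D (prodS s * prodS t) ≤
      2 ^ k * ((if s = t then (X : ℝ) else 0) + W) := by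
    intro s hs t ht
    have hk : (s ∩ t).card ≤ k := by
      rw [← (hS s hs).2.1]
      exact Finset.card_le_card Finset.inter_subset_left
    have h3 := avg_one' r X k Z hr hX hZ s t (hS s hs).1 (hS t ht).1 hk (hS s hs).2.2 (hS t ht).2.2
    have h4 : (2 : ℝ) ^ ((s ∩ t).card) ≤ 2 ^ k := pow_le_pow_right₀ (by norm_num) hk
    have h5 : 0 ≤ (if s = t then (X : ℝ) else 0) + W := by
      split_ifs <;> linarith
    calc 2 ^ ((s ∩ t).card) * ∑ D ∈ DD 2 r X 1, Rsum D (prodS s * prodS t)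
        ≤ 2 ^ ((s ∩ t).card) * ((if s = t then (X : ℝ) else 0) + W) :=
          mul_le_mul_of_nonneg_left h3 (by positivity)
      _ ≤ 2 ^ k * ((if s = t then (X : ℝ) else 0) + W) := mul_le_mul_of_nonneg_right h4 h5
  calc ∑ s ∈ S, ∑ t ∈ S, 2 ^ ((s ∩ t).card) * ∑ D ∈ DD 2 r X 1, Rsum D (prodS s * prodS t)
      ≤ ∑ s ∈ S, ∑ t ∈ S, 2 ^ k * ((if s = t then (X : ℝ) else 0) + W) :=
        Finset.sum_le_sum fun s hs => Finset.sum_le_sum fun t ht => h2 s hs t ht
    _ = 2 ^ k * (X * S.card + W * (S.card : ℝ) ^ 2) := by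
        have h6 : ∀ s ∈ S, ∑ t ∈ S, 2 ^ k * ((if s = t then (X : ℝ) else 0) + W) =
            2 ^ k * (X + S.card * W) := by
          intro s hs
          rw [← Finset.mul_sum, Finset.sum_add_distrib, Finset.sum_ite_eq, if_pos hs,
            Finset.sum_const, nsmul_eq_mul]
        rw [Finset.sum_congr rfl h6, Finset.sum_const, nsmul_eq_mul]
        ring
    _ ≤ _ := by
        have h28 : (2 : ℝ) ^ k ≤ 8 ^ k := pow_le_pow_left₀ (by norm_num) (by norm_num) k
        have h248 : (2 : ℝ) ^ k * 4 ^ k = 8 ^ k := by rw [← mul_pow]; norm_num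
        have h8 : (0 : ℝ) < 8 ^ k := by positivity
        have hc : (0 : ℝ) ≤ S.card := Nat.cast_nonneg _
        have e2 : 2 ^ k * (X * S.card + W * (S.card : ℝ) ^ 2) =
            2 ^ k * (X * S.card) + 1024 * 8 ^ k * (2 + Real.log Z) *
              ((√(X : ℝ) + Z / √(X : ℝ)) * (S.card : ℝ) ^ 2) := by
          rw [hW, ← h248]; ring
        rw [e2]
        have h9 : 2 ^ k * (X * (S.card : ℝ)) ≤ 8 ^ k * (X * S.card) :=
          mul_le_mul_of_nonneg_right h28 (by positivity)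
        have h10 : 8 ^ k * (X * (S.card : ℝ)) ≤
            1024 * 8 ^ k * (2 + Real.log Z) * (X * S.card) := by
          have : 1 ≤ 1024 * (2 + Real.log Z) := by linarith
          calc 8 ^ k * (X * (S.card : ℝ)) = 1 * (8 ^ k * (X * (S.card : ℝ))) := by ring
            _ ≤ (1024 * (2 + Real.log Z)) * (8 ^ k * (X * (S.card : ℝ))) :=
              mul_le_mul_of_nonneg_right this (by positivity)
            _ = _ := by ring
        have e3 : 1024 * 8 ^ k * (2 + Real.log Z) *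
            (X * S.card + (√(X : ℝ) + Z / √(X : ℝ)) * (S.card : ℝ) ^ 2) =
            1024 * 8 ^ k * (2 + Real.log Z) * (X * S.card) + 1024 * 8 ^ k * (2 + Real.log Z) *
              ((√(X : ℝ) + Z / √(X : ℝ)) * (S.card : ℝ) ^ 2) := by ring
        rw [e3]
        linarith

end Pool.Agent.N564.SP
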